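import Mathlib

set_option autoImplicit false

namespace Pool.Agent.Results.MP_b8a1e8_lc.NotIncluded

open Symbol in
/-- A CSG whose context-preserving jumping language is generated by no jumping monotone grammar.
A rule `(α, A, β, γ)` stands for `α A β → α γ β`. -/
theorem result :
    ∃ (T N : Type) (_ : Fintype T) (_ : Fintype N) (S : N)
      (P : Finset (List (Symbol T N) × N × List (Symbol T N) × List (Symbol T N))),
      (∀ r ∈ P, r.2.2.2 ≠ []) ∧
      ∀ (N' : Type) (S' : N') (P' : Finset (List (Symbol T N') × List (Symbol T N'))),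
        (∀ r ∈ P', (∃ A : N', nonterminal A ∈ r.1) ∧ r.1.length ≤ r.2.length) →
        {w : List T | Relation.ReflTransGen
            (fun (x y : List (Symbol T N)) => ∃ r ∈ P, ∃ u v u' v',
              x = u ++ r.1 ++ [nonterminal r.2.1] ++ r.2.2.1 ++ v ∧
              y = u' ++ r.1 ++ r.2.2.2 ++ r.2.2.1 ++ v' ∧
              u ++ r.1 ++ r.2.2.1 ++ v = u' ++ r.1 ++ r.2.2.1 ++ v')
            [nonterminal S] (w.map terminal)} ≠
        {w : List T | Relation.ReflTransGen
            (fun (x y : List (Symbol T N')) => ∃ r ∈ P', ∃ u v u' v',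
              x = u ++ r.1 ++ v ∧ y = u' ++ r.2 ++ v' ∧ u ++ v = u' ++ v')
            [nonterminal S'] (w.map terminal)} := by
  classical
  let a : Symbol Bool Bool := terminal false
  let b : Symbol Bool Bool := terminal true
  let A : Symbol Bool Bool := nonterminal false
  refine ⟨Bool, Bool, inferInstance, inferInstance, true,
    {([], true, [], [a, A, b]), ([a], false, [b], [a, A, b]), ([a], false, [b], [a, b])},
    by simp, fun N' S' P' hP' e => ?_⟩
  generalize hR : (fun (x y : List (Symbol Bool Bool)) => _) = R at e
  let rk : Symbol Bool Bool → ℕ := fun s => match s with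
    | terminal false => 0
    | terminal true => 2
    | _ => 1
  have inv : ∀ y, Relation.ReflTransGen R [nonterminal true] y →
      y = [nonterminal true] ∨ (nonterminal true ∉ y ∧ y.Pairwise fun s t => rk s ≤ rk t) := by
    intro y hy
    induction hy with
    | refl => exact Or.inl rfl
    | tail _ h ih =>
      right
      subst hR
      obtain ⟨r, hr, u, v, u', v', rfl, rfl, e1⟩ := h
      simp only [Finset.mem_insert, Finset.mem_singleton] at hr
      have key : ∀ γ : List (Symbol Bool Bool), nonterminal true ∉ γ →
          γ.Pairwise (fun s t => rk s ≤ rk t) → u ++ [a] ++ [b] ++ v = u' ++ [a] ++ [b] ++ v' →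
          (u ++ [a] ++ [A] ++ [b] ++ v = [nonterminal true] ∨
            nonterminal true ∉ u ++ [a] ++ [A] ++ [b] ++ v ∧
              (u ++ [a] ++ [A] ++ [b] ++ v).Pairwise (fun s t => rk s ≤ rk t)) →
          nonterminal true ∉ u' ++ [a] ++ γ ++ [b] ++ v' ∧
            (u' ++ [a] ++ γ ++ [b] ++ v').Pairwise (fun s t => rk s ≤ rk t) := by
        intro γ g1 g2 e1 ih
        rcases ih with ih | ⟨i1, i2⟩
        · have := congrArg List.length ih
          simp at this; omega
        have s1 : (u ++ [a] ++ [b] ++ v).Sublist (u ++ [a] ++ [A] ++ [b] ++ v) := by simp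
        have i3 := i2.sublist s1
        have i4 : nonterminal true ∉ u ++ [a] ++ [b] ++ v := fun h => i1 (s1.subset h)
        rw [e1] at i3 i4
        have r2 : ∀ s, rk s ≤ 2 := by rintro ((_ | _) | _) <;> simp [rk]
        simp only [List.pairwise_append, List.mem_append, List.mem_singleton, not_or] at i3 i4 ⊢
        refine ⟨⟨⟨⟨i4.1.1, g1⟩, i4.1.2⟩, i4.2⟩, ⟨⟨i3.1.1, g2, ?_⟩, by simp, ?_⟩, i3.2.1, ?_⟩
        · rintro s (hs | rfl) t _
          · exact (i3.1.1.2.2 s hs a rfl).trans (Nat.zero_le _)
          · exact Nat.zero_le _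
        · rintro s _ t rfl; exact r2 s
        · intro s _ t ht
          exact (r2 s).trans (i3.2.2 b (Or.inr rfl) t ht)
      rcases hr with rfl | rfl | rfl
      · rcases ih with ih | ih
        · have h1 := congrArg List.length ih
          have h2 := congrArg List.length e1
          simp at h1 h2
          have : u' = [] := List.length_eq_zero_iff.1 (by omega)
          have : v' = [] := List.length_eq_zero_iff.1 (by omega)
          simp [*, a, b, A, rk]
        · simp at ih
      · exact key _ (by simp [a, b, A]) (by simp [a, b, A, rk]) e1 ih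
      · exact key _ (by simp [a, b]) (by simp [a, b, rk]) e1 ih
  have gen : ∀ k, Relation.ReflTransGen R [nonterminal true]
      (List.replicate k a ++ [a] ++ [A] ++ [b] ++ List.replicate k b) := by
    intro k
    subst hR
    induction k with
    | zero => exact .single ⟨_, by simp; exact Or.inl rfl, [], [], [], [], rfl, rfl, rfl⟩
    | succ k ih =>
      refine ih.tail ⟨([a], false, [b], [a, A, b]), by simp, _, _, _, _, rfl, ?_, rfl⟩
      simp only [List.replicate_succ' (n := k) (a := a), List.replicate_succ (n := k) (a := b)]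
      simp
  obtain ⟨m, hm⟩ := (P'.finite_toSet.image fun r => r.2.length).bddAbove
  have mem : (List.replicate (m + 2) false ++ List.replicate (m + 2) true) ∈ {w : List Bool |
      Relation.ReflTransGen R [nonterminal true] (w.map terminal)} := by
    refine (gen m).tail ?_
    subst hR
    refine ⟨([a], false, [b], [a, b]), by simp, _, _, _, _, rfl, ?_, rfl⟩
    simp only [List.map_append, List.map_replicate, List.replicate_succ' (a := terminal false),
      List.replicate_succ (a := terminal true)]
    simp [a, b]
  have srt : ∀ w ∈ {w : List Bool | Relation.ReflTransGen R [nonterminal true] (w.map terminal)},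
      ∀ p q, w = p ++ q → true ∈ p → false ∉ q := by
    rintro _ hw p q rfl h1 h2
    rcases inv _ hw with h | ⟨_, h⟩
    · cases p <;> simp at h h1
    · rw [List.map_append, List.pairwise_append] at h
      have := h.2.2 _ (List.mem_map_of_mem h1) _ (List.mem_map_of_mem h2)
      simp [rk] at this
  rw [e] at mem srt
  rcases Relation.ReflTransGen.cases_tail mem with h | ⟨x, h1, r, hr, u, v, u', v', rfl, h2, h3⟩
  · simp [List.replicate_succ] at h
  obtain ⟨w1, w3, e1, e2, rfl⟩ := List.map_eq_append_iff.1 h2
  obtain ⟨w0, w2, rfl, rfl, e3⟩ := List.map_eq_append_iff.1 e2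
  have l1 : w2.length ≤ m := by
    have := hm ⟨r, hr, rfl⟩
    simp only [← e3, List.length_map] at this
    exact this
  have l2 : w2 ≠ [] := by
    rintro rfl
    obtain ⟨⟨B, hB⟩, h⟩ := hP' r hr
    have := List.length_pos_of_mem hB
    simp [← e3] at h
    simp [h] at hB
  have c : ∀ t : Bool, t ∈ w0 ++ w3 := by
    intro t
    have h4 := congrArg (List.count t) e1
    have h5 := List.count_le_length (a := t) (l := w2)
    rw [← List.count_pos_iff]
    simp only [List.count_append, List.count_replicate] at h4 ⊢
    cases t <;> simp at h4 <;> omega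
  obtain ⟨t, ht⟩ := List.exists_mem_of_ne_nil _ l2
  cases t
  · exact srt ((w0 ++ w3) ++ w2) (h1.tail ⟨r, hr, u, v, (w0 ++ w3).map terminal, [], rfl, by simp [e3],
      by simp [h3]⟩) _ _ rfl (c true) ht
  · exact srt (w2 ++ (w0 ++ w3)) (h1.tail ⟨r, hr, u, v, [], (w0 ++ w3).map terminal, rfl, by simp [e3],
      by simp [h3]⟩) _ _ rfl ht (c false)

end Pool.Agent.Results.MP_b8a1e8_lc.NotIncluded
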